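import Pool.Agent.Helper25.HL.Goals4

set_option autoImplicit false

/-!
# Project HL (MP_03bcbb_an), packet PS: the dimensions
-/

namespace Pool.Agent.Helper54.HL

open Pool.Agent.Helper25.HL

theorem two_pow_ge (y : ℕ) (hy : 30 ≤ y) : 256 * (2 * y + 1) ^ 2 ≤ 2 ^ y := by
  induction y, hy using Nat.le_induction with
  | base => norm_num
  | succ y hy ih =>
    have h1 : (2 * (y + 1) + 1) ^ 2 ≤ 2 * (2 * y + 1) ^ 2 := by nlinarith
    calc 256 * (2 * (y + 1) + 1) ^ 2 ≤ 256 * (2 * (2 * y + 1) ^ 2) := Nat.mul_le_mul_left _ h1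
      _ = 2 * (256 * (2 * y + 1) ^ 2) := by ring
      _ ≤ 2 * 2 ^ y := Nat.mul_le_mul_left _ ih
      _ = 2 ^ (y + 1) := by ring

theorem sqrt_ge (x : ℕ) (hx : 60 ≤ x) : 64 * x * x ≤ Nat.sqrt (2 ^ x) / 4 := by
  rw [Nat.le_div_iff_mul_le (by norm_num)]
  obtain ⟨y, hy⟩ : ∃ y, y = x / 2 := ⟨_, rfl⟩
  have h1 := two_pow_ge y (by omega)
  have h2 : 2 ^ y ≤ Nat.sqrt (2 ^ x) := by
    rw [Nat.le_sqrt, ← pow_add]
    exact Nat.pow_le_pow_right (by norm_num) (by omega)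
  have h3 : x ≤ 2 * y + 1 := by omega
  have h4 : x * x ≤ (2 * y + 1) ^ 2 := by
    rw [_root_.sq]
    exact Nat.mul_le_mul h3 h3
  calc 64 * x * x * 4 = 256 * (x * x) := by ring
    _ ≤ 256 * (2 * y + 1) ^ 2 := Nat.mul_le_mul_left _ h4
    _ ≤ 2 ^ y := h1
    _ ≤ _ := h2

/-- The exponents. -/
def ex (m : ℕ) : ℕ → ℕ
  | 0 => m
  | k + 1 => Nat.sqrt (2 ^ (ex m k)) / 4

/-- The dimensions. -/
def PP (m : ℕ) : ℕ → ℕ
  | 0 => 1
  | k + 1 => 2 ^ (ex m k)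

theorem ex_ge (m : ℕ) (hm : 60 ≤ m) : ∀ k, k + 60 ≤ ex m k
  | 0 => by simpa [ex] using hm
  | k + 1 => by
    have ih := ex_ge m hm k
    have h1 := sqrt_ge (ex m k) (by omega)
    have h2 : ex m k + 1 ≤ 64 * ex m k * ex m k := by nlinarith
    show k + 1 + 60 ≤ Nat.sqrt (2 ^ (ex m k)) / 4
    omega

theorem ex_succ (m : ℕ) (hm : 60 ≤ m) (k : ℕ) : 64 * (k + 2) * ex m k ≤ ex m (k + 1) := by
  have h0 := ex_ge m hm k
  have h1 := sqrt_ge (ex m k) (by omega)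
  have h2 : 64 * (k + 2) * ex m k ≤ 64 * ex m k * ex m k :=
    Nat.mul_le_mul_right _ (Nat.mul_le_mul_left _ (by omega))
  exact h2.trans h1

theorem ex_lt (m : ℕ) (hm : 60 ≤ m) (k : ℕ) : ex m k < ex m (k + 1) := by
  have h0 := ex_ge m hm k
  have h1 := ex_succ m hm k
  nlinarith

theorem PP_mono (m : ℕ) (hm : 60 ≤ m) : StrictMono (PP m) := by
  refine strictMono_nat_of_lt_succ fun k => ?_
  rcases k with _ | k
  · show 1 < 2 ^ (ex m 0)
    have h0 := ex_ge m hm 0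
    exact Nat.one_lt_two_pow (by omega)
  · show 2 ^ (ex m k) < 2 ^ (ex m (k + 1))
    exact Nat.pow_lt_pow_right (by norm_num) (ex_lt m hm k)

theorem PP_pow (m : ℕ) (hm : 60 ≤ m) (k : ℕ) (hk : 1 ≤ k) :
    (PP m k) ^ (64 * (k + 1)) ≤ PP m (k + 1) := by
  obtain ⟨j, rfl⟩ : ∃ j, k = j + 1 := ⟨k - 1, by omega⟩
  show (2 ^ (ex m j)) ^ (64 * (j + 1 + 1)) ≤ 2 ^ (ex m (j + 1))
  rw [← pow_mul]
  refine Nat.pow_le_pow_right (by norm_num) ?_
  have h := ex_succ m hm j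
  calc ex m j * (64 * (j + 1 + 1)) = 64 * (j + 2) * ex m j := by ring
    _ ≤ _ := h

theorem ps : S_PS := by
  intro M
  obtain ⟨m, hm⟩ : ∃ m, m = M + 60 := ⟨_, rfl⟩
  have hm60 : 60 ≤ m := by omega
  have hmono := PP_mono m hm60
  refine ⟨PP m, rfl, ?_, hmono, ?_, ?_, fun k hk => PP_pow m hm60 k hk, ?_, ?_⟩
  · show M ≤ 2 ^ (ex m 0)
    have h1 : ex m 0 < 2 ^ (ex m 0) := Nat.lt_two_pow_self
    have h2 : ex m 0 = m := rfl
    omega
  · show 64 ≤ 2 ^ (ex m 0)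
    have h2 : ex m 0 = m := rfl
    calc 64 = 2 ^ 6 := by norm_num
      _ ≤ 2 ^ (ex m 0) := Nat.pow_le_pow_right (by norm_num) (by omega)
  · intro k hk
    obtain ⟨j, rfl⟩ : ∃ j, k = j + 1 := ⟨k - 1, by omega⟩
    rfl
  · intro c hc
    have h1 : dim0 (PP m) c ≤ (2 * c + 1) * PP m c := by
      unfold dim0
      have h2 : ∑ k ∈ Finset.range c, (PP m k + PP m (k + 1)) ≤
          ∑ _k ∈ Finset.range c, 2 * PP m c := by
        refine Finset.sum_le_sum fun k hk => ?_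
        have hk' := Finset.mem_range.1 hk
        have h3 : PP m k ≤ PP m c := hmono.monotone hk'.le
        have h4 : PP m (k + 1) ≤ PP m c := hmono.monotone hk'
        omega
      rw [Finset.sum_const, Finset.card_range, smul_eq_mul] at h2
      calc _ ≤ c * (2 * PP m c) + PP m c := Nat.add_le_add_right h2 _
        _ = _ := by ring
    have h2 : 2 * c + 1 ≤ PP m c := by
      obtain ⟨j, rfl⟩ : ∃ j, c = j + 1 := ⟨c - 1, by omega⟩
      show 2 * (j + 1) + 1 ≤ 2 ^ (ex m j)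
      have h3 := ex_ge m hm60 j
      have h4 : 2 ^ (j + 60) ≤ 2 ^ (ex m j) := Nat.pow_le_pow_right (by norm_num) h3
      have h5 : j + 59 < 2 ^ (j + 59) := Nat.lt_two_pow_self
      have h6 : 2 ^ (j + 60) = 2 * 2 ^ (j + 59) := by ring
      omega
    have h3 : 1 ≤ PP m c := by omega
    calc (dim0 (PP m) c) ^ 8 ≤ (PP m c * PP m c) ^ 8 :=
          Nat.pow_le_pow_left (h1.trans (Nat.mul_le_mul_right _ h2)) _
      _ = (PP m c) ^ 16 := by ring
      _ ≤ (PP m c) ^ (64 * (c + 1)) := Nat.pow_le_pow_right h3 (by omega)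
      _ ≤ _ := PP_pow m hm60 c hc
  · intro k
    show 2 ^ k ≤ 2 ^ (ex m k)
    have h3 := ex_ge m hm60 k
    exact Nat.pow_le_pow_right (by norm_num) (by omega)

end Pool.Agent.Helper54.HL
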